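import Pool.Agent.NH7.Cub.Rk2

/-!
# Twists of rank one

The definitions of `Gal`, of the groups of points, of continuous cocycles, of `ShaTwoTrivial` and of
`ShaTateTrivial` are in `Pool.Agent.W309.TD.Stmt`.
-/

set_option autoImplicit false
set_option linter.all false

open Polynomial IsDedekindDomain

namespace Pool.Agent.Results.MP_1bdb59_nt.RankOneTwists

open Pool.Agent.W309.Sha

/-- The polynomial `D(s) = h(g(s)) - s` for `h = x ^ 3 + a x ^ 2 + b x + c`; the variable of `k[X]`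
is `s`. -/
noncomputable def D {k : Type} [Field k] (a b c : k) (g : k[X]) : k[X] :=
  g ^ 3 + C a * g ^ 2 + C b * g + C c - X

/-- The curve `D y ^ 2 = x ^ 3 + a x ^ 2 + b x + c - s` over `k(s)` for `D` in `k[s]`, in
Weierstrass form `y ^ 2 = x ^ 3 + D a x ^ 2 + D ^ 2 b x + D ^ 3 (c - s)`. -/
noncomputable def E {k : Type} [Field k] (a b c : k) (D : k[X]) : WeierstrassCurve (RatFunc k) where
  a₁ := 0
  a₂ := algebraMap k[X] (RatFunc k) D * algebraMap k[X] (RatFunc k) (C a)
  a₃ := 0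
  a₄ := algebraMap k[X] (RatFunc k) D ^ 2 * algebraMap k[X] (RatFunc k) (C b)
  a₆ := algebraMap k[X] (RatFunc k) D ^ 3 * algebraMap k[X] (RatFunc k) (C c - X)

open scoped Classical in
/-- The conclusion for an elliptic curve `W` over `K = k(s)`: there is no rational 2-torsion,
`W(K) / 2 W(K)` has order two, every class of 2-power order in `H ^ 1 (K, W)` which is zero over the
completions at all maximal ideals of `k[s]` is zero, and the 2-adic Tate module of the
Tate-Shafarevich group is zero. -/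
def Concl {k : Type} [Field k] (W : WeierstrassCurve (RatFunc k)) : Prop :=
  (∀ T : Points W (RatFunc k), T + T = 0 → T = 0) ∧
  (∃ P₀ : Points W (RatFunc k), (∀ Q, Q + Q ≠ P₀) ∧
    ∀ P : Points W (RatFunc k), ∃ Q, P = Q + Q ∨ P = P₀ + (Q + Q)) ∧
  ShaTwoTrivial k[X] W ∧ ShaTateTrivial k[X] W

/-- The constant `a` of `k₀(u)`; the variable of `k₀[X]` is `u`. -/
noncomputable def const {k₀ : Type} [Field k₀] (a : k₀) : RatFunc k₀ :=
  algebraMap k₀[X] (RatFunc k₀) (C a)

/-- The polynomial `g(s) + u` in `s` over `k₀(u)`. -/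
noncomputable def addU {k₀ : Type} [Field k₀] (g : k₀[X]) : (RatFunc k₀)[X] :=
  g.map ((algebraMap k₀[X] (RatFunc k₀)).comp C) + C (algebraMap k₀[X] (RatFunc k₀) X)

/-- Let `h = x ^ 3 + a x ^ 2 + b x + c` with `a ^ 2 ≠ 3 b`.

(1) Let `k` be any field of characteristic different from two and let `g` in `k[s]` be such that
`D = h(g) - s` is irreducible and such that `a ^ 2 - 4 b - 2 a g - 3 g ^ 2` is not a square modulo
`D`, that is `g` is the only root of `h(x) - s` modulo `D`. Then the conclusion holds for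
`D y ^ 2 = h(x) - s` over `k(s)`.

(2) Let `k₀` be any field of characteristic different from two, `a`, `b`, `c` in `k₀`, `g` any
polynomial in `k₀[s]` and `k = k₀(u)`. Then the conclusion holds for the curve
`(h(g(s) + u) - s) y ^ 2 = h(x) - s` over `k(s)`. -/
theorem result :
    (∀ (k : Type) [Field k], (2 : k) ≠ 0 → ∀ a b c : k, a ^ 2 ≠ 3 * b → ∀ g : k[X],
      Irreducible (D a b c g) →
      (∀ r : k[X], ¬ D a b c g ∣ r ^ 2 - (C (a ^ 2 - 4 * b) - C (2 * a) * g - 3 * g ^ 2)) →
      Concl (E a b c (D a b c g))) ∧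
    (∀ (k₀ : Type) [Field k₀], (2 : k₀) ≠ 0 → ∀ a b c : k₀, a ^ 2 ≠ 3 * b → ∀ g : k₀[X],
      Concl (E (const a) (const b) (const c) (D (const a) (const b) (const c) (addU g)))) := by
  refine ⟨fun k _ h2 a b c hab g hirr hδ => ?_, fun k₀ _ h2 a b c hab g => ?_⟩
  · obtain ⟨⟨h1, h3⟩, h4, h5⟩ := NH7.Cub.rk_base (K := RatFunc k) h2 a b c hab g hirr hδ
    exact ⟨h1, h3, h4, h5⟩
  · obtain ⟨⟨h1, h3⟩, h4, h5⟩ := NH7.Cub.rk_generic (k := RatFunc k₀)
      (K := RatFunc (RatFunc k₀)) h2 a b c hab g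
    exact ⟨h1, h3, h4, h5⟩

end Pool.Agent.Results.MP_1bdb59_nt.RankOneTwists
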